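import Pool.Agent.H12.NimReg

open Pool.Agent.H12.NimReg

theorem Pool.Agent.Results.MP_02a275_nt.Q1.result :
    ∃ a b : ℕ → ℕ, IsTwoRegular (fun n => (a n : ℤ)) ∧ IsTwoRegular (fun n => (b n : ℤ)) ∧
      ¬ IsTwoRegular (fun n => ((Nat.xor (a n) (b n) : ℕ) : ℤ)) := by
  refine ⟨lowBit, powSum, A_regular, B_regular, fun h => not_fg _ h fun e => ?_⟩
  exact Submodule.subset_span ⟨e, 0, by positivity, rfl⟩
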