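import Pool.Agent.H12.NimReg

open Pool.Agent.H12.NimReg

theorem Pool.Agent.Results.MP_02a275_nt.Q2.result :
    ∃ a b : ℕ → ℕ, IsTwoRegular (fun n => (a n : ℤ)) ∧ IsTwoRegular (fun n => (b n : ℤ)) ∧
      ¬ IsTwoRegularArray (fun i j => ((Nat.xor (a i) (b j) : ℕ) : ℤ)) := by
  refine ⟨lowBit, powSum, A_regular, B_regular, ?_⟩
  rintro ⟨s, cs, h⟩
  refine not_fg (Submodule.span ℤ (Set.range fun i : Fin s => fun n => cs i n n))
    (Submodule.fg_span (Set.finite_range _)) fun e => ?_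
  obtain ⟨w, hw⟩ := h e 0 0 (by positivity) (by positivity)
  rw [Submodule.mem_span_range_iff_exists_fun]
  refine ⟨w, ?_⟩
  funext n
  have := hw n n
  simp only [add_zero] at this
  simp only [Finset.sum_apply, Pi.smul_apply, smul_eq_mul]
  exact this.symm
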